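import Pool.Agent.Y157.PC.Stm
import Pool.Agent.Y800.HM

/-!
# Hermite-Minkowski for homomorphisms to a finite group
-/

set_option autoImplicit false
set_option linter.all false

open Polynomial NumberField

namespace Pool.Agent.Y737.PC

open Pool.Agent.Y157.PS Pool.Agent.Y157.PC Pool.Agent.Y800

attribute [-instance] DivisionRing.toRatAlgebra

/-- the inclusion -/
noncomputable abbrev io : ZBar →+* AlgebraicClosure ℚ := algebraMap ZBar (AlgebraicClosure ℚ)

theorem io_inj : Function.Injective io := RingOfIntegers.coe_injective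

/-- `a / b` with `b` outside `P` -/
def Loc (P : Ideal ZBar) (z : AlgebraicClosure ℚ) : Prop :=
  ∃ a b : ZBar, b ∉ P ∧ z * io b = io a

theorem step (P : Ideal ZBar) (hP : P.IsMaximal) (z : AlgebraicClosure ℚ) (n : ℕ) :
    ∀ f : ZBar[X], f.natDegree ≤ n → aeval z f = 0 → (∃ i, f.coeff i ∉ P) →
      Loc P z ∨ Loc P z⁻¹ := by
  have hP' := hP.isPrime
  induction n with
  | zero =>
    intro f hf h0 ⟨i, hi⟩
    exfalso
    rw [Polynomial.eq_C_of_natDegree_le_zero hf, aeval_C] at h0
    have h1 : f.coeff 0 = 0 := by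
      apply io_inj
      rw [map_zero]
      exact h0
    apply hi
    rw [Polynomial.eq_C_of_natDegree_le_zero hf, h1, map_zero, coeff_zero]
    exact P.zero_mem
  | succ n ih =>
    intro f hf h0 ⟨i, hi⟩
    by_cases hd : f.natDegree ≤ n
    · exact ih f hd h0 ⟨i, hi⟩
    have hdn : f.natDegree = n + 1 := by omega
    have hint : IsIntegral ℤ (io f.leadingCoeff * z) := by
      have h1 := isIntegral_leadingCoeff_smul f z h0
      rw [Algebra.smul_def] at h1
      exact isIntegral_trans (A := ZBar) _ h1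
    set c : ZBar := ⟨_, hint⟩ with hc
    have hcz : io c = io f.leadingCoeff * z := rfl
    by_cases ha : f.leadingCoeff ∈ P
    swap
    · left
      exact ⟨c, f.leadingCoeff, ha, by rw [hcz, mul_comm]⟩
    by_cases hcP : c ∈ P
    swap
    · right
      refine ⟨f.leadingCoeff, c, hcP, ?_⟩
      have hz : z ≠ 0 := by
        rintro rfl
        apply hcP
        have : c = 0 := by
          apply io_inj
          rw [hcz, mul_zero, map_zero]
        rw [this]
        exact P.zero_mem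
      rw [hcz]
      field_simp
    · -- reduce the degree
      refine ih (f - C f.leadingCoeff * X ^ (n + 1) + C c * X ^ n) ?_ ?_ ⟨i, ?_⟩
      · rw [natDegree_le_iff_coeff_eq_zero]
        intro j hj
        rw [coeff_add, coeff_sub, coeff_C_mul_X_pow, coeff_C_mul_X_pow, if_neg (by omega : ¬ j = n)]
        by_cases hj' : j = n + 1
        · rw [if_pos hj', hj', ← hdn, coeff_natDegree, sub_self, add_zero]
        · rw [if_neg hj', coeff_eq_zero_of_natDegree_lt (by omega)]
          ring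
      · rw [map_add, map_sub, h0, map_mul, map_mul, aeval_C, aeval_C, map_pow, map_pow, aeval_X]
        change 0 - io f.leadingCoeff * z ^ (n + 1) + io c * z ^ n = 0
        rw [hcz]
        ring
      · intro h1
        apply hi
        rw [coeff_add, coeff_sub, coeff_C_mul_X_pow, coeff_C_mul_X_pow] at h1
        have h2 : (if i = n + 1 then f.leadingCoeff else 0) ∈ P := by
          split_ifs
          · exact ha
          · exact P.zero_mem
        have h3 : (if i = n then c else 0) ∈ P := by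
          split_ifs
          · exact hcP
          · exact P.zero_mem
        have h4 := P.sub_mem (P.add_mem h1 h2) h3
        have h5 : f.coeff i - (if i = n + 1 then f.leadingCoeff else 0) + (if i = n then c else 0) +
          (if i = n + 1 then f.leadingCoeff else 0) - (if i = n then c else 0) = f.coeff i := by ring
        rwa [h5] at h4

theorem loc_or (P : Ideal ZBar) (hP : P.IsMaximal) {p : ℕ} (hp : p.Prime) (hpP : (p : ZBar) ∈ P)
    (z : AlgebraicClosure ℚ) : Loc P z ∨ Loc P z⁻¹ := by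
  have h1 : IsAlgebraic ℤ z := by
    rw [IsFractionRing.isAlgebraic_iff ℤ ℚ (AlgebraicClosure ℚ)]
    exact Algebra.IsAlgebraic.isAlgebraic z
  obtain ⟨g, hg0, hgz⟩ := h1
  have hprim : aeval z g.primPart = 0 := by
    rw [g.eq_C_content_mul_primPart, map_mul, aeval_C] at hgz
    rcases mul_eq_zero.1 hgz with h2 | h2
    · exfalso
      have h3 : g.content = 0 := by
        have h4 := (algebraMap ℤ (AlgebraicClosure ℚ)).injective_int
        exact h4 (by rw [h2, map_zero])
      exact hg0 (content_eq_zero_iff.1 h3)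
    · exact h2
  refine step P hP z _ (g.primPart.map (algebraMap ℤ ZBar)) le_rfl ?_ ?_
  · rw [aeval_map_algebraMap]
    exact hprim
  · by_contra hcon
    push Not at hcon
    have hall : ∀ i, (p : ℤ) ∣ g.primPart.coeff i := by
      intro i
      by_contra hnd
      have hcop : IsCoprime (p : ℤ) (g.primPart.coeff i) :=
        (Int.prime_iff_natAbs_prime.2 (by simpa using hp)).coprime_iff_not_dvd.2 hnd
      obtain ⟨u, v, huv⟩ := hcop
      apply hP.ne_top
      rw [Ideal.eq_top_iff_one]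
      have h5 := hcon i
      rw [coeff_map] at h5
      have h6 : (1 : ZBar) = algebraMap ℤ ZBar u * (p : ZBar) +
          algebraMap ℤ ZBar v * algebraMap ℤ ZBar (g.primPart.coeff i) := by
        rw [← map_mul, ← map_natCast (algebraMap ℤ ZBar) p, ← map_mul, ← map_add, ← map_one (algebraMap ℤ ZBar)]
        congr 1
        rw [← huv]
      rw [h6]
      exact P.add_mem (P.mul_mem_left _ hpP) (P.mul_mem_left _ h5)
    have h7 : (C (p : ℤ)) ∣ g.primPart := C_dvd_iff_dvd_coeff _ _ |>.2 hall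
    have h8 := (g.isPrimitive_primPart) _ h7
    have h9 := Int.isUnit_iff_natAbs_eq.1 h8
    simp at h9
    exact hp.one_lt.ne' h9

/-- the valuation ring at `P` -/
noncomputable def VP (P : Ideal ZBar) (hP : P.IsMaximal) {p : ℕ} (hp : p.Prime)
    (hpP : (p : ZBar) ∈ P) : ValuationSubring (AlgebraicClosure ℚ) where
  carrier := {z | Loc P z}
  mul_mem' := by
    rintro z w ⟨a, b, hb, h⟩ ⟨a', b', hb', h'⟩
    refine ⟨a * a', b * b', fun hc => ?_, ?_⟩
    · rcases hP.isPrime.mem_or_mem hc with h1 | h1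
      · exact hb h1
      · exact hb' h1
    · rw [map_mul, map_mul, ← h, ← h']
      ring
  one_mem' := ⟨1, 1, fun h => hP.ne_top (P.eq_top_iff_one.2 h), by simp⟩
  add_mem' := by
    rintro z w ⟨a, b, hb, h⟩ ⟨a', b', hb', h'⟩
    refine ⟨a * b' + a' * b, b * b', fun hc => ?_, ?_⟩
    · rcases hP.isPrime.mem_or_mem hc with h1 | h1
      · exact hb h1
      · exact hb' h1
    · rw [map_add, map_mul, map_mul, map_mul, ← h, ← h']
      ring
  zero_mem' := ⟨0, 1, fun h => hP.ne_top (P.eq_top_iff_one.2 h), by simp⟩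
  neg_mem' := by
    rintro z ⟨a, b, hb, h⟩
    exact ⟨-a, b, hb, by rw [map_neg, ← h]; ring⟩
  mem_or_inv_mem' := loc_or P hP hp hpP

theorem mem_VP {P : Ideal ZBar} {hP : P.IsMaximal} {p : ℕ} {hp : p.Prime}
    {hpP : (p : ZBar) ∈ P} {z : AlgebraicClosure ℚ} : z ∈ VP P hP hp hpP ↔ Loc P z := Iff.rfl

theorem non_iff {K : Type} [Field K] {V : ValuationSubring K} {x : K} :
    x ∈ V.nonunits ↔ x ∈ V ∧ (x = 0 ∨ x⁻¹ ∉ V) := by
  rw [ValuationSubring.mem_nonunits_iff]
  constructor
  · intro h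
    refine ⟨(V.valuation_le_one_iff x).1 h.le, ?_⟩
    by_cases hx : x = 0
    · exact Or.inl hx
    · right
      intro hi
      have h1 := (V.valuation_le_one_iff x⁻¹).2 hi
      have h2 : V.valuation x * V.valuation x⁻¹ = 1 := by
        rw [← map_mul, mul_inv_cancel₀ hx, map_one]
      have h3 : V.valuation x * V.valuation x⁻¹ < 1 := by
        calc V.valuation x * V.valuation x⁻¹ ≤ V.valuation x * 1 := by gcongr
          _ = V.valuation x := mul_one _
          _ < 1 := h
      exact h3.ne h2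
  · rintro ⟨h1, h2⟩
    refine lt_of_le_of_ne ((V.valuation_le_one_iff x).2 h1) ?_
    intro h3
    rcases h2 with h2 | h2
    · rw [h2, map_zero] at h3
      exact zero_ne_one h3
    · apply h2
      rw [← V.valuation_le_one_iff, map_inv₀, h3, inv_one]

theorem non_VP {P : Ideal ZBar} {hP : P.IsMaximal} {p : ℕ} {hp : p.Prime}
    {hpP : (p : ZBar) ∈ P} {z : AlgebraicClosure ℚ} {a b : ZBar} (ha : a ∈ P) (hb : b ∉ P)
    (h : z * io b = io a) : z ∈ (VP P hP hp hpP).nonunits := by
  rw [non_iff]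
  refine ⟨⟨a, b, hb, h⟩, ?_⟩
  by_cases hz : z = 0
  · exact Or.inl hz
  right
  rintro ⟨a', b', hb', h'⟩
  have h1 : io b * io b' = io a * io a' := by
    rw [← h, ← h']
    field_simp
  have h2 : b * b' = a * a' := by
    apply io_inj
    rw [map_mul, map_mul]
    exact h1
  have h3 : b * b' ∈ P := by rw [h2]; exact P.mul_mem_right _ ha
  rcases hP.isPrime.mem_or_mem h3 with h4 | h4
  · exact hb h4
  · exact hb' h4

theorem ine_VP {P : Ideal ZBar} {hP : P.IsMaximal} {p : ℕ} {hp : p.Prime}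
    {hpP : (p : ZBar) ∈ P} {τ : GQ} (hτ : InInertia P τ) : Ine (VP P hP hp hpP) τ := by
  have hc : ∀ x : ZBar, io (τ • x) = τ (io x) := fun x => rfl
  have hc' : ∀ x : ZBar, io (τ⁻¹ • x) = τ⁻¹ (io x) := fun x => rfl
  have hn : ∀ b : ZBar, b ∉ P → τ • b ∉ P := by
    intro b hb h
    apply hb
    have := P.sub_mem h (hτ b)
    rwa [sub_sub_cancel] at this
  have hn' : ∀ b : ZBar, b ∉ P → τ⁻¹ • b ∉ P := by
    intro b hb h
    apply hb
    have := P.add_mem (hτ (τ⁻¹ • b)) h
    rwa [sub_add_cancel, smul_inv_smul] at this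
  refine ⟨fun z => ⟨?_, ?_⟩, ?_⟩
  · rintro ⟨a, b, hb, h⟩
    refine ⟨τ⁻¹ • a, τ⁻¹ • b, hn' b hb, ?_⟩
    rw [hc', hc', ← h, map_mul]
    congr 1
    exact ((inv_smul_smul τ z) : τ⁻¹ • (τ • z) = z).symm
  · rintro ⟨a, b, hb, h⟩
    refine ⟨τ • a, τ • b, hn b hb, ?_⟩
    rw [hc, hc, ← h, map_mul]
  · rintro z ⟨a, b, hb, h⟩
    have h1 : τ z * io (τ • b) = io (τ • a) := by
      rw [hc, hc, ← h, map_mul]
    refine non_VP (a := (τ • a - a) * b - a * (τ • b - b)) (b := b * (τ • b)) ?_ ?_ ?_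
    · exact P.sub_mem (P.mul_mem_right _ (hτ a)) (P.mul_mem_left _ (hτ b))
    · intro h2
      rcases hP.isPrime.mem_or_mem h2 with h3 | h3
      · exact hb h3
      · exact hn b hb h3
    · rw [map_sub, map_mul, map_mul, map_mul, map_sub, map_sub, ← h1, ← h]
      ring

/-- a homomorphism to a finite group with given kernel -/
theorem fin_ker (G Γ : Type) [Group G] [Group Γ] [Finite Γ] (H : Subgroup G) :
    {ψ : G →* Γ | ψ.ker = H}.Finite := by
  classical
  by_cases hne : ∃ ψ₀ : G →* Γ, ψ₀.ker = H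
  swap
  · have : {ψ : G →* Γ | ψ.ker = H} = ∅ := by
      ext ψ
      simp only [Set.mem_setOf_eq, Set.mem_empty_iff_false, iff_false]
      exact fun h => hne ⟨ψ, h⟩
    rw [this]
    exact Set.finite_empty
  obtain ⟨ψ₀, hψ₀⟩ := hne
  have hfinQ : Finite (G ⧸ H) := by
    have h1 : H.index ≠ 0 := by
      rw [← hψ₀, Subgroup.index_ker]
      exact Nat.card_ne_zero.2 ⟨⟨⟨1, 1, map_one _⟩⟩, inferInstance⟩
    have h2 : H.FiniteIndex := ⟨h1⟩
    exact inferInstance
  refine Set.Finite.of_finite_image (f := fun ψ : G →* Γ => fun q : G ⧸ H => ψ q.out)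
    (Set.toFinite _) ?_
  intro ψ hψ ψ' hψ' h
  ext g
  have h1 : ((QuotientGroup.mk g : G ⧸ H).out)⁻¹ * g ∈ H := by
    rw [← QuotientGroup.eq]
    exact Quotient.out_eq _
  have h2 : ψ g = ψ ((QuotientGroup.mk g : G ⧸ H).out) := by
    have h3 : ψ (((QuotientGroup.mk g : G ⧸ H).out)⁻¹ * g) = 1 := by
      rw [← MonoidHom.mem_ker, hψ]; exact h1
    rw [map_mul, map_inv, inv_mul_eq_one] at h3
    exact h3.symm
  have h2' : ψ' g = ψ' ((QuotientGroup.mk g : G ⧸ H).out) := by
    have h3 : ψ' (((QuotientGroup.mk g : G ⧸ H).out)⁻¹ * g) = 1 := by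
      rw [← MonoidHom.mem_ker, hψ']; exact h1
    rw [map_mul, map_inv, inv_mul_eq_one] at h3
    exact h3.symm
  rw [h2, h2']
  exact congrFun h (QuotientGroup.mk g)

theorem hmf : S_HMF := by
  classical
  intro κ Γ _ _ _ _ _ S
  have hac : IsAlgClosure ℚ κ := inferInstance
  let θ : κ ≃ₐ[ℚ] AlgebraicClosure ℚ := IsAlgClosure.equiv ℚ κ (AlgebraicClosure ℚ)
  let Θ : (κ ≃ₐ[ℚ] κ) ≃* GQ := AlgEquiv.autCongr θ
  have hΘ : ∀ (τ : GQ) (z : κ), Θ.symm τ z = θ.symm (τ (θ z)) := fun τ z => rfl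
  let Φ : ((κ ≃ₐ[ℚ] κ) →* Γ) → (GQ →* Γ) := fun ψ => ψ.comp Θ.symm.toMonoidHom
  have hΦ : ∀ ψ τ, Φ ψ τ = ψ (Θ.symm τ) := fun ψ τ => rfl
  have hΦinj : Function.Injective Φ := by
    intro ψ ψ' h
    ext σ
    have h1 := DFunLike.congr_fun h (Θ σ)
    rw [hΦ, hΦ, MulEquiv.symm_apply_apply] at h1
    exact h1
  have hfin := HM.finite_subgroups (S.filter Nat.Prime) (fun p hp => (Finset.mem_filter.1 hp).2)
    (Nat.card Γ)
  refine Set.Finite.of_finite_image (f := Φ) ?_ hΦinj.injOn
  refine (hfin.biUnion (t := fun H => {ψ : GQ →* Γ | ψ.ker = H})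
    (fun H _ => fin_ker GQ Γ H)).subset ?_
  rintro _ ⟨ψ, ⟨⟨E, hE, hE1⟩, hU⟩, rfl⟩
  refine Set.mem_biUnion (x := (Φ ψ).ker) ?_ rfl
  refine ⟨MonoidHom.normal_ker _, ?_, ?_, ?_⟩
  · have hfd : FiniteDimensional ℚ (E.map θ.toAlgHom) :=
      LinearEquiv.finiteDimensional (IntermediateField.intermediateFieldMap θ E).toLinearEquiv
    refine Subgroup.isOpen_mono (H₁ := (E.map θ.toAlgHom).fixingSubgroup) ?_
      (IntermediateField.fixingSubgroup_isOpen _)
    intro τ hτ
    change ψ (Θ.symm τ) = 1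
    apply hE1
    rw [IntermediateField.mem_fixingSubgroup_iff] at hτ ⊢
    intro z hz
    rw [hΘ, AlgEquiv.symm_apply_eq]
    exact hτ _ ⟨z, hz, rfl⟩
  · rw [Subgroup.index_ker]
    exact Nat.card_le_card_of_injective (fun x : (Set.range (Φ ψ)) => (x : Γ)) Subtype.val_injective
  · intro p hp hpS P hP hpP τ hτ
    change ψ (Θ.symm τ) = 1
    have hpS' : p ∉ S := fun h => hpS (Finset.mem_filter.2 ⟨h, hp⟩)
    have hI := ine_VP (hP := hP) (hp := hp) (hpP := hpP) hτ
    set V := VP P hP hp hpP with hV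
    have hnon : ∀ z : κ, z ∈ (V.comap (θ : κ →+* AlgebraicClosure ℚ)).nonunits ↔
        θ z ∈ V.nonunits := by
      intro z
      rw [non_iff, non_iff, ValuationSubring.mem_comap, ValuationSubring.mem_comap, ← map_inv₀]
      refine and_congr Iff.rfl (or_congr ?_ Iff.rfl)
      exact (map_eq_zero θ).symm
    refine hU p hp hpS' (V.comap (θ : κ →+* AlgebraicClosure ℚ)) ?_ (Θ.symm τ) ⟨?_, ?_⟩
    · rw [hnon, map_natCast]
      refine non_VP (a := (p : ZBar)) (b := 1) hpP (fun h => hP.ne_top (P.eq_top_iff_one.2 h)) ?_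
      simp
    · intro z
      rw [ValuationSubring.mem_comap, ValuationSubring.mem_comap]
      change θ (Θ.symm τ z) ∈ V ↔ θ z ∈ V
      rw [hΘ, AlgEquiv.apply_symm_apply]
      exact hI.1 _
    · intro z hz
      rw [hnon, map_sub, hΘ, AlgEquiv.apply_symm_apply]
      exact hI.2 _ hz

end Pool.Agent.Y737.PC
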